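import Pool.Agent.H59.PU.Main
set_option autoImplicit false

/-! Gödel numbers of relabelled formulas. -/

namespace Pool.Agent.H59.PU

open FirstOrder FirstOrder.Language
open Pool.Agent.H358R3.Plac

variable {C : Type} [Encodable C] {α : Type}

/-- code of a relabelled term -/
def tc (N : ℕ) (r : α → ℕ) {m : ℕ} : (LC C).Term (α ⊕ Fin m) → ℕ
  | .var (.inl a) => Nat.pair 0 (r a)
  | .var (.inr i) => Nat.pair 0 (N + i)
  | .func PFun.one _ => Nat.pair 1 0
  | .func (PFun.cst c) _ => Nat.pair 2 (Encodable.encode c)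
  | .func PFun.mul ts => Nat.pair 3 (Nat.pair (tc N r (ts 0)) (tc N r (ts 1)))

/-- code of a relabelled formula -/
def fc (N : ℕ) (r : α → ℕ) : {m : ℕ} → (LC C).BoundedFormula α m → ℕ
  | _, .falsum => Nat.pair 0 0
  | _, .equal t₁ t₂ => Nat.pair 1 (Nat.pair (tc N r t₁) (tc N r t₂))
  | _, .imp φ ψ => Nat.pair 2 (Nat.pair (fc N r φ) (fc N r ψ))
  | _, .all φ => Nat.pair 3 (fc N r φ)

theorem termCode_relabel {N : ℕ} (rr : α → Fin N) {m : ℕ} (t : (LC C).Term (α ⊕ Fin m)) :
    termCode (t.relabel (BoundedFormula.relabelAux (fun a => (Sum.inr (rr a) : Empty ⊕ Fin N)) m)) =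
      tc N (fun a => (rr a : ℕ)) t := by
  induction t with
  | var x =>
    rcases x with a | i
    · rfl
    · rfl
  | func f ts ih =>
    cases f with
    | one => rfl
    | cst c => rfl
    | mul =>
      show Nat.pair 3 (Nat.pair (termCode _) (termCode _)) = Nat.pair 3 (Nat.pair _ _)
      rw [← ih 0, ← ih 1]

theorem code_relabel {N : ℕ} (rr : α → Fin N) {m : ℕ} (φ : (LC C).BoundedFormula α m) :
    code (φ.relabel (fun a => (Sum.inr (rr a) : Empty ⊕ Fin N))) =
      fc N (fun a => (rr a : ℕ)) φ := by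
  induction φ with
  | falsum => rfl
  | equal t₁ t₂ =>
    show Nat.pair 1 (Nat.pair (termCode _) (termCode _)) = Nat.pair 1 (Nat.pair _ _)
    rw [← termCode_relabel, ← termCode_relabel]
  | rel r a => exact Empty.elim r
  | imp φ ψ ih1 ih2 =>
    rw [BoundedFormula.relabel_imp]
    show Nat.pair 2 (Nat.pair (code _) (code _)) = Nat.pair 2 (Nat.pair _ _)
    rw [ih1, ih2]
  | all φ ih =>
    rw [BoundedFormula.relabel_all]
    show Nat.pair 3 (code _) = Nat.pair 3 _
    rw [ih]

theorem primrec_tc {N : ℕ → ℕ} {r : ℕ → α → ℕ} (hN : Primrec N)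
    (hr : ∀ a, Primrec fun k => r k a) {m : ℕ} (t : (LC C).Term (α ⊕ Fin m)) :
    Primrec fun k => tc (N k) (r k) t := by
  induction t with
  | var x =>
    rcases x with a | i
    · exact Primrec₂.natPair.comp (Primrec.const 0) (hr a)
    · exact Primrec₂.natPair.comp (Primrec.const 0) (Primrec.nat_add.comp hN (Primrec.const _))
  | func f ts ih =>
    cases f with
    | one => exact Primrec.const _
    | cst c => exact Primrec.const _
    | mul =>
      exact Primrec₂.natPair.comp (Primrec.const 3) (Primrec₂.natPair.comp (ih 0) (ih 1))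

theorem primrec_fc {N : ℕ → ℕ} {r : ℕ → α → ℕ} (hN : Primrec N)
    (hr : ∀ a, Primrec fun k => r k a) {m : ℕ} (φ : (LC C).BoundedFormula α m) :
    Primrec fun k => fc (N k) (r k) φ := by
  induction φ with
  | falsum => exact Primrec.const _
  | equal t₁ t₂ =>
    exact Primrec₂.natPair.comp (Primrec.const 1)
      (Primrec₂.natPair.comp (primrec_tc hN hr t₁) (primrec_tc hN hr t₂))
  | rel r a => exact Empty.elim r
  | imp φ ψ ih1 ih2 =>
    exact Primrec₂.natPair.comp (Primrec.const 2) (Primrec₂.natPair.comp ih1 ih2)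
  | all φ ih => exact Primrec₂.natPair.comp (Primrec.const 3) ih

end Pool.Agent.H59.PU
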