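import Pool.Graph.R_seed8.H358R3.Plac3
import Pool.Graph.R_seed8.Y669.TA.DC967
set_option autoImplicit false

/-! Uniform definability in all plactic monoids. The formulas are those of the library file
`H358R3/Plac2.lean`; here they are shown to work in all plactic monoids at once. -/

namespace Pool.Agent.H59.PU

open FirstOrder FirstOrder.Language
open Pool.Agent.Helper967.ArithDef Pool.Agent.Helper967.ModelDef
open Pool.Agent.H358R3.Plac

/-- the plactic monoids with constants -/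
structure J0 (C : Type) : Type 1 where
  A : Type
  lo : LinearOrder A
  g : C → A

attribute [instance] J0.lo

/-- the plactic monoids with constants and a distinguished generator -/
structure J (C : Type) : Type 1 where
  A : Type
  lo : LinearOrder A
  g : C → A
  o : A

attribute [instance] J.lo

variable {C : Type}

/-- definability with the parameter `o`, uniformly in all plactic monoids -/
def DJ (R : ∀ j : J C, (ℕ → PL j.A) → Prop) : Prop :=
  @DM (LC C) (J C) (fun j => PL j.A) (fun j => str j.g) Unit (fun j _ => gen j.o) R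

namespace DJ

theorem iff {R S : ∀ j : J C, (ℕ → PL j.A) → Prop} (h : ∀ i v, R i v ↔ S i v) (hR : DJ R) : DJ S :=
  @DM.iff (LC C) (J C) (fun j => PL j.A) (fun j => str j.g) Unit (fun j _ => gen j.o) R S h hR

theorem and {R S : ∀ j : J C, (ℕ → PL j.A) → Prop} (hR : DJ R) (hS : DJ S) :
    DJ (fun i v => R i v ∧ S i v) :=
  @DM.and (LC C) (J C) (fun j => PL j.A) (fun j => str j.g) Unit (fun j _ => gen j.o) R S hR hS

theorem or {R S : ∀ j : J C, (ℕ → PL j.A) → Prop} (hR : DJ R) (hS : DJ S) :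
    DJ (fun i v => R i v ∨ S i v) :=
  @DM.or (LC C) (J C) (fun j => PL j.A) (fun j => str j.g) Unit (fun j _ => gen j.o) R S hR hS

theorem imp {R S : ∀ j : J C, (ℕ → PL j.A) → Prop} (hR : DJ R) (hS : DJ S) :
    DJ (fun i v => R i v → S i v) :=
  @DM.imp (LC C) (J C) (fun j => PL j.A) (fun j => str j.g) Unit (fun j _ => gen j.o) R S hR hS

theorem not {R : ∀ j : J C, (ℕ → PL j.A) → Prop} (hR : DJ R) : DJ (fun i v => ¬ R i v) :=
  @DM.not (LC C) (J C) (fun j => PL j.A) (fun j => str j.g) Unit (fun j _ => gen j.o) R hR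

theorem all {S : ∀ j : J C, PL j.A → (ℕ → PL j.A) → Prop}
    (hR : DJ (fun i v => S i (v 0) (fun n => v (n + 1)))) : DJ (fun i v => ∀ a, S i a v) :=
  @DM.all (LC C) (J C) (fun j => PL j.A) (fun j => str j.g) Unit (fun j _ => gen j.o) S hR

theorem ex {S : ∀ j : J C, PL j.A → (ℕ → PL j.A) → Prop}
    (hR : DJ (fun i v => S i (v 0) (fun n => v (n + 1)))) : DJ (fun i v => ∃ a, S i a v) :=
  @DM.ex (LC C) (J C) (fun j => PL j.A) (fun j => str j.g) Unit (fun j _ => gen j.o) S hR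

theorem ren {R : ∀ j : J C, (ℕ → PL j.A) → Prop} (ρ : ℕ → ℕ) (hR : DJ R) :
    DJ (fun i v => R i (fun n => v (ρ n))) :=
  @DM.ren (LC C) (J C) (fun j => PL j.A) (fun j => str j.g) Unit (fun j _ => gen j.o) R ρ hR

/-- value of a term -/
def val (t : (LC C).Term (Unit ⊕ ℕ)) (i : J C) (v : ℕ → PL i.A) : PL i.A :=
  @Term.realize (LC C) (PL i.A) (str i.g) _ (Sum.elim (fun _ => gen i.o) v) t

theorem term (t₁ t₂ : (LC C).Term (Unit ⊕ ℕ)) : DJ (fun i v => val t₁ i v = val t₂ i v) :=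
  @DM.term (LC C) (J C) (fun j => PL j.A) (fun j => str j.g) Unit (fun j _ => gen j.o) t₁ t₂

theorem r2 {R : ∀ j : J C, PL j.A → PL j.A → Prop} (h : DJ (fun i v => R i (v 0) (v 1))) (a b : ℕ) :
    DJ (fun i v => R i (v a) (v b)) :=
  ren (fun n => match n with
    | 0 => a
    | _ => b) h

theorem r1 {R : ∀ j : J C, PL j.A → Prop} (h : DJ (fun i v => R i (v 0))) (a : ℕ) :
    DJ (fun i v => R i (v a)) :=
  ren (fun _ => a) h

theorem r3 {R : ∀ j : J C, PL j.A → PL j.A → PL j.A → Prop}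
    (h : DJ (fun i v => R i (v 0) (v 1) (v 2))) (a b c : ℕ) :
    DJ (fun i v => R i (v a) (v b) (v c)) :=
  ren (fun n => match n with
    | 0 => a
    | 1 => b
    | _ => c) h

theorem isGen : DJ (C := C) (fun _ v => IsGen (v 0)) := by
  refine iff (R := fun i v => (¬ v 0 = 1) ∧ ∀ U V : PL i.A, v 0 = U * V → (U = 1 ∨ V = 1))
    (fun i v => (gen_iff (v 0)).symm) ?_
  exact and (not (term (tv C 0) t1)) (all (all (imp (term (tv C 2) (tM (tv C 1) (tv C 0)))
    (or (term (tv C 1) t1) (term (tv C 0) t1)))))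

theorem has : DJ (C := C) (fun _ v => Has (v 0) (v 1)) := by
  refine iff (R := fun i v => ∃ U V : PL i.A, v 0 = U * v 1 * V) (fun i v => Iff.rfl) ?_
  exact ex (ex (term (tv C 2) (tM (tM (tv C 1) (tv C 3)) (tv C 0))))

theorem powOf : DJ (C := C) (fun _ v => PowOf (v 0) (v 1)) := by
  refine iff (R := fun i v => ∀ Y : PL i.A, IsGen Y → Has (v 1) Y → Y = v 0) (fun i v => Iff.rfl) ?_
  exact all (imp (r1 (R := fun _ x => IsGen x) isGen 0) (imp (r2 (R := fun _ x y => Has x y) has 2 0)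
    (term (tv C 0) (tv C 1))))

theorem powO : DJ (C := C) (fun i v => PowOf (gen i.o) (v 0)) := by
  refine iff (R := fun i v => ∀ Y : PL i.A, IsGen Y → Has (v 0) Y → Y = gen i.o)
    (fun i v => Iff.rfl) ?_
  exact all (imp (r1 (R := fun _ x => IsGen x) isGen 0) (imp (r2 (R := fun _ x y => Has x y) has 1 0)
    (term (tv C 0) (tO C))))

theorem eqE : DJ (C := C) (fun i v => EqE (gen i.o) (v 0) (v 1) (v 2)) := by
  refine iff (R := fun i v => (v 0 = gen i.o ∧ v 1 = v 2) ∨ ((¬ v 0 = gen i.o) ∧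
    ((v 0 * (v 1 * v 2) = (v 1 * v 2) * v 0 ∧ gen i.o * (v 1 * v 2) = (v 1 * v 2) * gen i.o) ∨
     (v 0 * (v 2 * v 1) = (v 2 * v 1) * v 0 ∧ gen i.o * (v 2 * v 1) = (v 2 * v 1) * gen i.o))))
    (fun i v => Iff.rfl) ?_
  exact or (and (term (tv C 0) (tO C)) (term (tv C 1) (tv C 2)))
    (and (not (term (tv C 0) (tO C)))
      (or (and (term (tM (tv C 0) (tM (tv C 1) (tv C 2))) (tM (tM (tv C 1) (tv C 2)) (tv C 0)))
               (term (tM (tO C) (tM (tv C 1) (tv C 2))) (tM (tM (tv C 1) (tv C 2)) (tO C))))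
          (and (term (tM (tv C 0) (tM (tv C 2) (tv C 1))) (tM (tM (tv C 2) (tv C 1)) (tv C 0)))
               (term (tM (tO C) (tM (tv C 2) (tv C 1))) (tM (tM (tv C 2) (tv C 1)) (tO C))))))

theorem mulP : DJ (C := C) (fun i v => MulP (gen i.o) (v 0) (v 1) (v 2)) := by
  refine iff (R := fun i v => PowOf (gen i.o) (v 2) ∧ ∃ U W V : PL i.A, v 0 = U * W * V ∧
    (¬ Has U (v 1)) ∧ (¬ Has V (v 1)) ∧ PowOf (v 1) W ∧ EqE (gen i.o) (v 1) W (v 2))
    (fun i v => Iff.rfl) ?_
  refine and (r1 (R := fun i x => PowOf (gen i.o) x) powO 2)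
    (ex (ex (ex (and (term (tv C 3) (tM (tM (tv C 2) (tv C 1)) (tv C 0)))
    (and (not (r2 (R := fun _ x y => Has x y) has 2 4)) (and (not (r2 (R := fun _ x y => Has x y) has 0 4))
      (and (r2 (R := fun _ x y => PowOf x y) powOf 4 1)
        (r3 (R := fun i x y z => EqE (gen i.o) x y z) eqE 4 1 5))))))))

theorem mulPk (a b c : ℕ) : DJ (C := C) (fun i v => MulP (gen i.o) (v a) (v b) (v c)) :=
  r3 (R := fun i x y z => MulP (gen i.o) x y z) mulP a b c

theorem mul : DJ (C := C) (fun i v => MUL (gen i.o) (v 0) (v 1) (v 2)) := by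
  refine iff (R := fun i v => ∃ D T U : PL i.A, (∀ X, IsGen X → Has D X →
    ((∃ N : PL i.A, N = 1 ∧ MulP (gen i.o) T X N ∧ MulP (gen i.o) U X N) ∨
      ∃ Y, IsGen Y ∧ Has D Y ∧ ∃ E F,
      MulP (gen i.o) T Y E ∧ (∃ G : PL i.A, G = E * gen i.o ∧ MulP (gen i.o) T X G) ∧
      MulP (gen i.o) U Y F ∧ (∃ G : PL i.A, G = F * v 1 ∧ MulP (gen i.o) U X G))) ∧
    ∃ X, IsGen X ∧ Has D X ∧ MulP (gen i.o) T X (v 0) ∧ MulP (gen i.o) U X (v 2))
    (fun i v => ?_) ?_
  · unfold MUL
    simp only [exists_eq_left]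
  · refine ex (ex (ex (and ?_ ?_)))
    · refine all (imp (r1 (R := fun _ x => IsGen x) isGen 0)
        (imp (r2 (R := fun _ x y => Has x y) has 3 0) (or ?_ ?_)))
      · exact ex (and (term (tv C 0) t1) (and (mulPk 3 1 0) (mulPk 2 1 0)))
      · refine ex (and (r1 (R := fun _ x => IsGen x) isGen 0)
          (and (r2 (R := fun _ x y => Has x y) has 4 0)
          (ex (ex (and ?_ (and ?_ (and ?_ ?_)))))))
        · exact mulPk 5 2 1
        · exact ex (and (term (tv C 0) (tM (tv C 2) (tO C))) (mulPk 6 4 0))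
        · exact mulPk 4 2 0
        · exact ex (and (term (tv C 0) (tM (tv C 1) (tv C 9))) (mulPk 5 4 0))
    · exact ex (and (r1 (R := fun _ x => IsGen x) isGen 0) (and (r2 (R := fun _ x y => Has x y) has 3 0)
        (and (mulPk 2 0 4) (mulPk 1 0 6))))

/-- all products of exponents are found -/
def Tot {A : Type} [LinearOrder A] (o : A) : Prop :=
  ∀ E F : PL A, PowOf (gen o) E → PowOf (gen o) F → ∃ G : PL A, MUL (gen o) E F G

theorem tot : DJ (C := C) (fun i _ => Tot i.o) := by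
  refine iff (R := fun i _ => ∀ E F : PL i.A, PowOf (gen i.o) E → PowOf (gen i.o) F →
    ∃ G : PL i.A, MUL (gen i.o) E F G) (fun i v => Iff.rfl) ?_
  exact all (all (imp (r1 (R := fun i x => PowOf (gen i.o) x) powO 1)
    (imp (r1 (R := fun i x => PowOf (gen i.o) x) powO 0)
      (ex (r3 (R := fun i x y z => MUL (gen i.o) x y z) mul 2 1 0)))))

end DJ

open DJ

theorem tot_of_infinite {A : Type} [LinearOrder A] [Infinite A] (o : A) : Tot o := by
  intro E F hE hF
  obtain ⟨m, rfl⟩ := (powOf_gen o E).1 hE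
  obtain ⟨k, rfl⟩ := (powOf_gen o F).1 hF
  exact ⟨gen o ^ (m * k), (MUL_iff o m k (m * k)).2 rfl⟩

theorem infinite_of_tot {A : Type} [LinearOrder A] {o : A} (h : Tot o) : Infinite A := by
  by_contra hfin
  rw [not_infinite_iff_finite] at hfin
  obtain ⟨G, D, T, U, h1, X, ⟨x, rfl⟩, hX, h2, h3⟩ := h (gen o ^ (Nat.card A)) (gen o ^ 0)
    ((powOf_gen o _).2 ⟨_, rfl⟩) ((powOf_gen o _).2 ⟨_, rfl⟩)
  have key : ∀ (i : ℕ) (y : A), Has D (gen y) → cnt y T = i → ∀ i' ≤ i, ∃ z, cnt z T = i' := by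
    intro i
    induction i with
    | zero =>
      intro y hy hy0 i' hi'
      exact ⟨y, by omega⟩
    | succ i ih =>
      intro y hy hy0 i' hi'
      rcases Nat.lt_or_ge i i' with hlt | hge
      · exact ⟨y, by omega⟩
      · rcases h1 (gen y) ⟨y, rfl⟩ hy with ⟨h, -⟩ | ⟨_, ⟨z, rfl⟩, hz, E, F, h4, h5, -, -⟩
        · rw [← pow_zero (gen o)] at h
          have := mulP_cnt h
          omega
        · obtain ⟨j, rfl⟩ := mulP_E h4
          rw [← pow_succ] at h5
          have e4 := mulP_cnt h4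
          have e5 := mulP_cnt h5
          exact ih z hz (by omega) i' hge
  have h4 := key (Nat.card A) x hX (mulP_cnt h2)
  choose f hf using fun i : Fin (Nat.card A + 1) => h4 i.1 (by omega)
  have hinj : Function.Injective f := by
    intro a b hab
    have := hf a
    rw [hab, hf b] at this
    exact Fin.ext this.symm
  have := Nat.card_le_card_of_injective f hinj
  rw [Nat.card_fin] at this
  omega

/-- the plactic monoids of infinite rank with constants and a distinguished generator -/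
structure JI (C : Type) : Type 1 where
  j : J C
  inf : Infinite j.A

attribute [instance] JI.inf

theorem sub {R : ∀ j : J C, (ℕ → PL j.A) → Prop} (h : DJ R) :
    @DM (LC C) (JI C) (fun i => PL i.j.A) (fun i => str i.j.g) Unit (fun i _ => gen i.j.o)
      (fun i => R i.j) := by
  obtain ⟨φ, hφ⟩ := h
  exact ⟨φ, fun i v => hφ i.j v⟩

theorem interp : @Interp (LC C) (JI C) (fun i => PL i.j.A) (fun i => str i.j.g) Unit
    (fun i _ => gen i.j.o) (fun i n => gen i.j.o ^ n) := by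
  refine @Interp.mk (LC C) (JI C) (fun i => PL i.j.A) (fun i => str i.j.g) Unit
    (fun i _ => gen i.j.o) (fun i n => gen i.j.o ^ n) ?_ ?_ ?_
  · refine sub (R := fun i v => ∃ n : ℕ, v 0 = gen i.o ^ n) ?_
    refine DJ.iff (R := fun i v => PowOf (gen i.o) (v 0)) (fun i v => ?_) DJ.powO
    rw [powOf_gen]
  · refine ⟨fun i v => v 0 * v 1 = v 2,
      sub (R := fun i v => v 0 * v 1 = v 2) (DJ.term (tM (tv C 0) (tv C 1)) (tv C 2)), fun i w => ?_⟩
    show gen i.j.o ^ (w 0) * gen i.j.o ^ (w 1) = gen i.j.o ^ (w 2) ↔ _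
    rw [← pow_add]
    exact ⟨fun h => gen_pow_inj i.j.o h, fun h => by rw [h]⟩
  · exact ⟨fun i v => MUL (gen i.j.o) (v 0) (v 1) (v 2),
      sub (R := fun i v => MUL (gen i.o) (v 0) (v 1) (v 2)) DJ.mul, fun i w => MUL_iff i.j.o _ _ _⟩

end Pool.Agent.H59.PU
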