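import Pool.Agent.H59.PU.Def
set_option autoImplicit false

/-! Sentences that work in all plactic monoids at once. -/

namespace Pool.Agent.H59.PU

open FirstOrder FirstOrder.Language
open Pool.Agent.Helper967.ArithDef Pool.Agent.Helper967.ModelDef
open Pool.Agent.H358R3.Plac Pool.Agent.Y669.TA

variable {C : Type}

/-- `IsGen` is definable without parameters, uniformly in all plactic monoids. -/
theorem isGen0 : @DM (LC C) (J0 C) (fun j => PL j.A) (fun j => str j.g) Empty (fun _ e => e.elim)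
    (fun _ v => IsGen (v 0)) := by
  letI : ∀ j : J0 C, (LC C).Structure (PL j.A) := fun j => str j.g
  refine DM.iff (R := fun i v => (¬ v 0 = (1 : PL i.A)) ∧
    ∀ U V : PL i.A, v 0 = U * V → (U = 1 ∨ V = 1))
    (fun i v => (gen_iff (v 0)).symm) ?_
  exact DM.and (DM.not (DM.term (Term.var (Sum.inr 0)) t1))
    (DM.all (DM.all (DM.imp (DM.term (Term.var (Sum.inr 2)) (tM (Term.var (Sum.inr 1)) (Term.var (Sum.inr 0))))
      (DM.or (DM.term (Term.var (Sum.inr 1)) t1) (DM.term (Term.var (Sum.inr 0)) t1)))))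

/-- truth of a formula at a generator and its `n`-th power -/
def At {A : Type} [LinearOrder A] (g : C → A) (ψ : (LC C).Formula (Unit ⊕ ℕ)) (o : A) (n : ℕ) :
    Prop :=
  @Formula.Realize (LC C) (PL A) (str g) _ ψ (Sum.elim (fun _ => gen o) (fun _ => gen o ^ n))

theorem mk (ψ : (LC C).Formula (Unit ⊕ ℕ)) :
    ∃ Ψ : (LC C).BoundedFormula Empty 2, ∀ (A : Type) [LinearOrder A] (g : C → A) (n : ℕ),
      TrueIn g (sig Ψ n) ↔ ∀ o : A, At g ψ o n := by
  obtain ⟨χ, hχ⟩ := isGen0 (C := C)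
  let r1 : Unit ⊕ ℕ → Empty ⊕ Fin 2 := fun s => match s with
    | .inl _ => .inr 0
    | .inr _ => .inr 1
  let r2 : Empty ⊕ ℕ → Empty ⊕ Fin 2 := fun s => match s with
    | .inl e => e.elim
    | .inr _ => .inr 0
  refine ⟨(BoundedFormula.relabel (n := 2) r2 χ).imp (BoundedFormula.relabel (n := 2) r1 ψ),
    fun A _ g n => ?_⟩
  letI := str g
  have key1 : ∀ (v0 : Empty → PL A) (x0 : Fin 0 → PL A) (a b : PL A),
      (BoundedFormula.relabel (n := 2) r1 ψ : (LC C).BoundedFormula Empty 2).Realize v0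
        (Fin.snoc (Fin.snoc x0 a : Fin 1 → PL A) b : Fin 2 → PL A) ↔
        ψ.Realize (Sum.elim (fun _ => a) (fun _ => b)) := by
    intro v0 x0 a b
    rw [BoundedFormula.realize_relabel]
    have h1 : (Sum.elim v0 ((Fin.snoc (Fin.snoc x0 a : Fin 1 → PL A) b : Fin 2 → PL A) ∘ Fin.castAdd 0) ∘ r1) =
        Sum.elim (fun _ => a) (fun _ => b) := by
      funext s
      rcases s with e | k
      · rfl
      · rfl
    rw [h1]
    unfold Formula.Realize
    exact iff_of_eq (congrArg (BoundedFormula.Realize ψ _) (Subsingleton.elim _ _))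
  have key2 : ∀ (v0 : Empty → PL A) (x0 : Fin 0 → PL A) (a b : PL A),
      (BoundedFormula.relabel (n := 2) r2 χ : (LC C).BoundedFormula Empty 2).Realize v0
        (Fin.snoc (Fin.snoc x0 a : Fin 1 → PL A) b : Fin 2 → PL A) ↔ IsGen a := by
    intro v0 x0 a b
    rw [BoundedFormula.realize_relabel]
    have h1 : (Sum.elim v0 ((Fin.snoc (Fin.snoc x0 a : Fin 1 → PL A) b : Fin 2 → PL A) ∘ Fin.castAdd 0) ∘ r2) =
        Sum.elim (fun e : Empty => e.elim) (fun _ => a) := by
      funext s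
      rcases s with e | k
      · exact e.elim
      · rfl
    rw [h1]
    refine Iff.trans ?_ (hχ ⟨A, inferInstance, g⟩ (fun _ => a))
    unfold Formula.Realize
    exact iff_of_eq (congrArg (BoundedFormula.Realize χ _) (Subsingleton.elim _ _))
  unfold TrueIn sig Sentence.Realize Formula.Realize
  rw [BoundedFormula.realize_all]
  simp only [BoundedFormula.realize_all, BoundedFormula.realize_imp]
  constructor
  · intro hh i
    refine (key1 _ _ (gen i) (gen i ^ n)).1 (hh (gen i) (gen i ^ n) ?_ ((key2 _ _ _ _).2 ⟨i, rfl⟩))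
    show _ = _
    rw [realize_num]
    rfl
  · intro hh a b hab hgen
    obtain ⟨i, rfl⟩ := (key2 _ _ _ _).1 hgen
    refine (key1 _ _ _ _).2 ?_
    have h1 : b = gen i ^ n := Eq.trans (b := _) hab (realize_num g n _)
    rw [h1]
    exact hh i

/-- For every arithmetical `B`: sentences which are true in all plactic monoids if `B n`, and false
in all plactic monoids of infinite rank otherwise. -/
theorem main {B : ℕ → Prop} (hB : Arithmetical B) :
    ∃ Ψ : (LC C).BoundedFormula Empty 2, ∀ n : ℕ,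
      (B n → ∀ (A : Type) [LinearOrder A] (g : C → A), TrueIn g (sig Ψ n)) ∧
      (¬ B n → ∀ (A : Type) [LinearOrder A] [Infinite A] (g : C → A), ¬ TrueIn g (sig Ψ n)) := by
  obtain ⟨ψ, hψ⟩ := DC967.dc_arith (@DN.closed (LC C) (JI C) (fun i => PL i.j.A)
    (fun i => str i.j.g) Unit (fun i _ => gen i.j.o) (fun i n => gen i.j.o ^ n) interp) hB
  obtain ⟨τ, hτ⟩ := DJ.tot (C := C)
  obtain ⟨Ψ, hΨ⟩ := mk (τ.imp ψ)
  have e : ∀ (A : Type) [LinearOrder A] (g : C → A) (o : A) (n : ℕ),
      At g (τ.imp ψ) o n ↔ (DJ.Tot o → At g ψ o n) := by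
    intro A _ g o n
    letI := str g
    unfold At
    rw [Formula.realize_imp]
    exact imp_congr (hτ ⟨A, inferInstance, g, o⟩ (fun _ => gen o ^ n)) Iff.rfl
  have e2 : ∀ (A : Type) [LinearOrder A] [Infinite A] (g : C → A) (o : A) (n : ℕ),
      At g ψ o n ↔ B n := by
    intro A _ _ g o n
    exact hψ ⟨⟨A, inferInstance, g, o⟩, inferInstance⟩ (fun _ => n)
  refine ⟨Ψ, fun n => ⟨fun hn A _ g => ?_, fun hn A _ _ g h => ?_⟩⟩
  · rw [hΨ]
    intro o
    rw [e]
    intro ht
    have := infinite_of_tot ht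
    exact (e2 A g o n).2 hn
  · rw [hΨ] at h
    obtain ⟨o⟩ : Nonempty A := inferInstance
    have h1 := h o
    rw [e] at h1
    exact hn ((e2 A g o n).1 (h1 (tot_of_infinite o)))

/-- One sentence is true exactly in the plactic monoids of infinite rank. -/
theorem infinite_rank : ∃ θ : (LC C).Sentence, ∀ (A : Type) [LinearOrder A] (g : C → A),
    TrueIn g θ ↔ Infinite A := by
  obtain ⟨τ, hτ⟩ := DJ.tot (C := C)
  obtain ⟨Ψ, hΨ⟩ := mk (τ.not)
  refine ⟨(sig Ψ 0).not, fun A _ g => ?_⟩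
  have e : ∀ (o : A) (n : ℕ), At g τ.not o n ↔ ¬ DJ.Tot o := by
    intro o n
    letI := str g
    unfold At
    rw [Formula.realize_not]
    exact not_congr (hτ ⟨A, inferInstance, g, o⟩ (fun _ => gen o ^ n))
  have h0 : TrueIn g (sig Ψ 0).not ↔ ¬ TrueIn g (sig Ψ 0) := by
    letI := str g
    unfold TrueIn
    exact Sentence.realize_not _
  rw [h0, hΨ]
  constructor
  · intro h
    push Not at h
    obtain ⟨o, ho⟩ := h
    rw [e, not_not] at ho
    exact infinite_of_tot ho
  · intro hinf h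
    obtain ⟨o⟩ : Nonempty A := inferInstance
    exact (e o 0).1 (h o) (tot_of_infinite o)

end Pool.Agent.H59.PU
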