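import Pool.Agent.H59.PU.Code
set_option autoImplicit false

/-! The `ω`-jump is many-one reducible to the theories of the plactic monoids of infinite rank. -/

namespace Pool.Agent.H59.PU

open FirstOrder FirstOrder.Language
open Pool.Agent.Helper967.ArithDef Pool.Agent.Helper967.ModelDef
open Pool.Agent.H358R3.Plac Pool.Agent.Y669.TA

/-- `H k ⟨e, a⟩`: `∃ y₁ ¬ ∃ y₂ ¬ … ∃ y_k ¬` the program `e` halts on `⟨…⟨⟨a, y₁⟩, y₂⟩…, y_k⟩`. -/
def H : ℕ → ℕ → Prop
  | 0, x => (Nat.Partrec.Code.eval (Denumerable.ofNat Nat.Partrec.Code x.unpair.1) x.unpair.2).Dom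
  | k + 1, x => ∃ y, ¬ H k (Nat.pair x.unpair.1 (Nat.pair x.unpair.2 y))

variable {C : Type}

theorem dcU {D : ((ℕ → ℕ) → Prop) → Prop} (h : DC D) : D (fun w => H 0 (w 0)) := by
  have hf : Nat.Partrec (fun x : ℕ =>
      Nat.Partrec.Code.eval (Denumerable.ofNat Nat.Partrec.Code x.unpair.1) x.unpair.2) := by
    refine Partrec.nat_iff.1 ?_
    exact Nat.Partrec.Code.eval_part.comp
      ((Computable.ofNat Nat.Partrec.Code).comp (Computable.fst.comp Computable.unpair))
      (Computable.snd.comp Computable.unpair)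
  refine h.iff (fun w => ?_) (h.ex' (S := fun y w => y ∈ (Nat.Partrec.Code.eval
    (Denumerable.ofNat Nat.Partrec.Code (w 0).unpair.1) (w 0).unpair.2))
    (h.ren (fun n => match n with | 0 => 1 | _ => 0) (h.partrec hf)))
  exact Part.dom_iff_mem.symm

theorem dcG {D : ((ℕ → ℕ) → Prop) → Prop} (h : DC D) :
    D (fun w => w 2 = Nat.pair (w 0).unpair.1 (Nat.pair (w 0).unpair.2 (w 1))) :=
  h.eq (h.tvar 2) (h.tpair (h.tfst (h.tvar 0)) (h.tpair (h.tsnd (h.tvar 0)) (h.tvar 1)))

/-- the assignment `x, y, z, z, …` -/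
def asg {M : Type} (x y z : M) : ℕ → M
  | 0 => x
  | 1 => y
  | _ => z

/-- the matrix -/
theorem exU : ∃ χ : (LC C).Formula (Unit ⊕ ℕ), ∀ (i : JI C) (x : ℕ),
    @Formula.Realize (LC C) (PL i.j.A) (str i.j.g) _ χ
      (Sum.elim (fun _ => gen i.j.o) (fun _ => gen i.j.o ^ x)) ↔ H 0 x := by
  obtain ⟨χ, hχ⟩ := dcU (@DN.closed (LC C) (JI C) (fun i => PL i.j.A)
    (fun i => str i.j.g) Unit (fun i _ => gen i.j.o) (fun i n => gen i.j.o ^ n) interp)
  exact ⟨χ, fun i x => hχ i (fun _ => x)⟩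

/-- the step -/
theorem exG : ∃ χ : (LC C).Formula (Unit ⊕ ℕ), ∀ (i : JI C) (x : ℕ) (a b : PL i.j.A),
    @Formula.Realize (LC C) (PL i.j.A) (str i.j.g) _ χ
      (Sum.elim (fun _ => gen i.j.o) (asg (gen i.j.o ^ x) a b)) ↔
      ∃ y : ℕ, a = gen i.j.o ^ y ∧
        b = gen i.j.o ^ (Nat.pair x.unpair.1 (Nat.pair x.unpair.2 y)) := by
  obtain ⟨χ, hχ⟩ := dcG (@DN.closed (LC C) (JI C) (fun i => PL i.j.A)
    (fun i => str i.j.g) Unit (fun i _ => gen i.j.o) (fun i n => gen i.j.o ^ n) interp)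
  obtain ⟨γ₁, h1⟩ := DJ.r1 (C := C) (R := fun i x => PowOf (gen i.o) x) DJ.powO 1
  obtain ⟨γ₂, h2⟩ := DJ.r1 (C := C) (R := fun i x => PowOf (gen i.o) x) DJ.powO 2
  refine ⟨(γ₁ ⊓ γ₂) ⊓ χ, fun i x a b => ?_⟩
  let _ := str i.j.g
  rw [Formula.realize_inf, Formula.realize_inf]
  have e1 := h1 i.j (asg (gen i.j.o ^ x) a b)
  have e2 := h2 i.j (asg (gen i.j.o ^ x) a b)
  constructor
  · rintro ⟨⟨k1, k2⟩, k3⟩
    obtain ⟨y, rfl⟩ := (powOf_gen i.j.o a).1 (e1.1 k1)
    obtain ⟨z, rfl⟩ := (powOf_gen i.j.o b).1 (e2.1 k2)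
    have e3 := hχ i (asg x y z)
    have e4 : (fun n => gen i.j.o ^ (asg x y z n)) =
        asg (gen i.j.o ^ x) (gen i.j.o ^ y) (gen i.j.o ^ z) := by
      funext n
      rcases n with _ | _ | n <;> rfl
    rw [e4] at e3
    have e5 : z = Nat.pair x.unpair.1 (Nat.pair x.unpair.2 y) := e3.1 k3
    exact ⟨y, rfl, by rw [e5]⟩
  · rintro ⟨y, rfl, rfl⟩
    refine ⟨⟨e1.2 ((powOf_gen i.j.o _).2 ⟨y, rfl⟩), e2.2 ((powOf_gen i.j.o _).2 ⟨_, rfl⟩)⟩, ?_⟩
    have e3 := hχ i (asg x y (Nat.pair x.unpair.1 (Nat.pair x.unpair.2 y)))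
    have e4 : (fun n => gen i.j.o ^ (asg x y (Nat.pair x.unpair.1 (Nat.pair x.unpair.2 y)) n)) =
        asg (gen i.j.o ^ x) (gen i.j.o ^ y)
          (gen i.j.o ^ (Nat.pair x.unpair.1 (Nat.pair x.unpair.2 y))) := by
      funext n
      rcases n with _ | _ | n <;> rfl
    rw [e4] at e3
    exact e3.2 rfl

/-- renaming for the matrix -/
def rU (N : ℕ) : Unit ⊕ ℕ → Fin (N + 2)
  | .inl _ => ⟨0, by omega⟩
  | .inr _ => ⟨N + 1, by omega⟩

/-- renaming for the step -/
def rG (N : ℕ) : Unit ⊕ ℕ → Fin (N + 2 + 2)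
  | .inl _ => ⟨0, by omega⟩
  | .inr 0 => ⟨N + 1, by omega⟩
  | .inr 1 => ⟨N + 2, by omega⟩
  | .inr _ => ⟨N + 3, by omega⟩

/-- the formula for `H j`: the argument is the exponent of the last variable -/
noncomputable def Phi (χU χG : (LC C).Formula (Unit ⊕ ℕ)) :
    (j N : ℕ) → (LC C).BoundedFormula Empty (N + 2)
  | 0, N => BoundedFormula.relabel (n := N + 2) (fun a => (Sum.inr (rU N a) : Empty ⊕ Fin (N + 2))) χU
  | j + 1, N =>
    (((BoundedFormula.relabel (n := N + 2 + 2)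
      (fun a => (Sum.inr (rG N a) : Empty ⊕ Fin (N + 2 + 2))) χG : (LC C).BoundedFormula Empty (N + 2 + 2)) ⊓
      (Phi χU χG j (N + 2)).not : (LC C).BoundedFormula Empty (N + 2 + 1 + 1)).ex).ex

theorem realize_Phi {χU χG : (LC C).Formula (Unit ⊕ ℕ)}
    (hU : ∀ (i : JI C) (x : ℕ), @Formula.Realize (LC C) (PL i.j.A) (str i.j.g) _ χU
      (Sum.elim (fun _ => gen i.j.o) (fun _ => gen i.j.o ^ x)) ↔ H 0 x)
    (hG : ∀ (i : JI C) (x : ℕ) (a b : PL i.j.A),
      @Formula.Realize (LC C) (PL i.j.A) (str i.j.g) _ χG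
        (Sum.elim (fun _ => gen i.j.o) (asg (gen i.j.o ^ x) a b)) ↔
        ∃ y : ℕ, a = gen i.j.o ^ y ∧
          b = gen i.j.o ^ (Nat.pair x.unpair.1 (Nat.pair x.unpair.2 y)))
    (i : JI C) (j : ℕ) : ∀ (N x : ℕ) (v0 : Empty → PL i.j.A) (v : Fin (N + 2) → PL i.j.A),
      v ⟨0, by omega⟩ = gen i.j.o → v ⟨N + 1, by omega⟩ = gen i.j.o ^ x →
      (@BoundedFormula.Realize (LC C) (PL i.j.A) (str i.j.g) _ _ (Phi χU χG j N) v0 v ↔ H j x) := by
  let _ := str i.j.g
  induction j with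
  | zero =>
    intro N x v0 v h0 h1
    rw [← hU i x]
    unfold Phi
    rw [BoundedFormula.realize_relabel]
    have h2 : (Sum.elim v0 (v ∘ Fin.castAdd 0) ∘
        fun a => (Sum.inr (rU N a) : Empty ⊕ Fin (N + 2))) =
        Sum.elim (fun _ => gen i.j.o) (fun _ => gen i.j.o ^ x) := by
      funext s
      rcases s with e | k
      · exact h0
      · exact h1
    rw [h2]
    unfold Formula.Realize
    exact iff_of_eq (congrArg (BoundedFormula.Realize χU _) (Subsingleton.elim _ _))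
  | succ j ih =>
    intro N x v0 v h0 h1
    unfold Phi H
    rw [BoundedFormula.realize_ex]
    simp only [BoundedFormula.realize_ex, BoundedFormula.realize_inf, BoundedFormula.realize_not]
    have key : ∀ a b : PL i.j.A,
        (BoundedFormula.relabel (n := N + 2 + 2)
          (fun a => (Sum.inr (rG N a) : Empty ⊕ Fin (N + 2 + 2))) χG :
            (LC C).BoundedFormula Empty (N + 2 + 2)).Realize v0
          (Fin.snoc (Fin.snoc v a : Fin (N + 2 + 1) → PL i.j.A) b : Fin (N + 2 + 1 + 1) → PL i.j.A) ↔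
        χG.Realize (Sum.elim (fun _ => gen i.j.o) (asg (gen i.j.o ^ x) a b)) := by
      intro a b
      rw [BoundedFormula.realize_relabel]
      have h2 : (Sum.elim v0 ((Fin.snoc (Fin.snoc v a : Fin (N + 2 + 1) → PL i.j.A) b :
          Fin (N + 2 + 1 + 1) → PL i.j.A) ∘ Fin.castAdd 0) ∘
          fun a => (Sum.inr (rG N a) : Empty ⊕ Fin (N + 2 + 2))) =
          Sum.elim (fun _ => gen i.j.o) (asg (gen i.j.o ^ x) a b) := by
        funext s
        rcases s with e | k
        · show (Fin.snoc (Fin.snoc v a : Fin (N + 2 + 1) → PL i.j.A) b :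
            Fin (N + 2 + 1 + 1) → PL i.j.A) ⟨0, by omega⟩ = gen i.j.o
          simp only [Fin.snoc]
          rw [dif_pos (by simp), dif_pos (by simp)]
          exact h0
        · rcases k with _ | _ | k
          · show (Fin.snoc (Fin.snoc v a : Fin (N + 2 + 1) → PL i.j.A) b :
              Fin (N + 2 + 1 + 1) → PL i.j.A) ⟨N + 1, by omega⟩ = gen i.j.o ^ x
            simp only [Fin.snoc]
            rw [dif_pos (by simp), dif_pos (by simp)]
            exact h1
          · show (Fin.snoc (Fin.snoc v a : Fin (N + 2 + 1) → PL i.j.A) b :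
              Fin (N + 2 + 1 + 1) → PL i.j.A) ⟨N + 2, by omega⟩ = a
            simp [Fin.snoc]
          · show (Fin.snoc (Fin.snoc v a : Fin (N + 2 + 1) → PL i.j.A) b :
              Fin (N + 2 + 1 + 1) → PL i.j.A) ⟨N + 3, by omega⟩ = b
            simp [Fin.snoc]
      rw [h2]
      unfold Formula.Realize
      exact iff_of_eq (congrArg (BoundedFormula.Realize χG _) (Subsingleton.elim _ _))
    have key2 : ∀ (a : PL i.j.A) (z : ℕ), (Phi χU χG j (N + 2)).Realize v0
        (Fin.snoc (Fin.snoc v a : Fin (N + 2 + 1) → PL i.j.A) (gen i.j.o ^ z) :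
          Fin (N + 2 + 1 + 1) → PL i.j.A) ↔ H j z := by
      intro a z
      refine ih (N + 2) z v0 _ ?_ ?_
      · simp only [Fin.snoc]
        rw [dif_pos (by simp), dif_pos (by simp)]
        exact h0
      · simp [Fin.snoc]
    constructor
    · rintro ⟨a, b, k1, k2⟩
      rw [key, hG] at k1
      obtain ⟨y, rfl, rfl⟩ := k1
      exact ⟨y, fun k3 => k2 ((key2 _ _).2 k3)⟩
    · rintro ⟨y, k3⟩
      refine ⟨gen i.j.o ^ y, gen i.j.o ^ (Nat.pair x.unpair.1 (Nat.pair x.unpair.2 y)), ?_, ?_⟩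
      · rw [key, hG]
        exact ⟨y, rfl, rfl⟩
      · intro k4
        exact k3 ((key2 _ _).1 k4)

section

variable [Encodable C]

/-- code of `(a ⊓ ¬ b).ex.ex` -/
def EE (a b : ℕ) : ℕ :=
  let n := fun x => Nat.pair 2 (Nat.pair x (Nat.pair 0 0))
  n (Nat.pair 3 (n (n (Nat.pair 3 (n (n (Nat.pair 2 (Nat.pair a (n (n b))))))))))

theorem code_step {k : ℕ} (a b : (LC C).BoundedFormula Empty (k + 1 + 1)) :
    code (((a ⊓ b.not : (LC C).BoundedFormula Empty (k + 1 + 1)).ex).ex) = EE (code a) (code b) :=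
  rfl

theorem primrec_EE : Primrec₂ EE := by
  have hn : Primrec fun x : ℕ => Nat.pair 2 (Nat.pair x (Nat.pair 0 0)) :=
    Primrec₂.natPair.comp (Primrec.const 2) (Primrec₂.natPair.comp Primrec.id (Primrec.const _))
  have h3 : Primrec fun x : ℕ => Nat.pair 3 x :=
    Primrec₂.natPair.comp (Primrec.const 3) Primrec.id
  have h2 : Primrec₂ fun a b : ℕ => Nat.pair 2 (Nat.pair a b) :=
    Primrec₂.natPair.comp (Primrec.const 2) Primrec₂.natPair
  exact hn.comp (h3.comp (hn.comp (hn.comp (h3.comp (hn.comp (hn.comp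
    (h2.comp Primrec.fst (hn.comp (hn.comp Primrec.snd)))))))))

/-- code of the matrix -/
def cU (χU : (LC C).Formula (Unit ⊕ ℕ)) (N : ℕ) : ℕ := fc (N + 2) (fun a => (rU N a : ℕ)) χU

/-- code of the step -/
def cG (χG : (LC C).Formula (Unit ⊕ ℕ)) (N : ℕ) : ℕ := fc (N + 2 + 2) (fun a => (rG N a : ℕ)) χG

theorem primrec_cU (χU : (LC C).Formula (Unit ⊕ ℕ)) : Primrec (cU χU) := by
  refine primrec_fc (N := fun N => N + 2) (r := fun N a => (rU N a : ℕ))
    (Primrec.nat_add.comp Primrec.id (Primrec.const 2)) (fun a => ?_) χU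
  rcases a with a | a
  · exact Primrec.const 0
  · exact Primrec.nat_add.comp Primrec.id (Primrec.const 1)

theorem primrec_cG (χG : (LC C).Formula (Unit ⊕ ℕ)) : Primrec (cG χG) := by
  refine primrec_fc (N := fun N => N + 2 + 2) (r := fun N a => (rG N a : ℕ))
    (Primrec.nat_add.comp (Primrec.nat_add.comp Primrec.id (Primrec.const 2)) (Primrec.const 2))
    (fun a => ?_) χG
  rcases a with a | a
  · exact Primrec.const 0
  · rcases a with _ | _ | a
    · exact Primrec.nat_add.comp Primrec.id (Primrec.const 1)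
    · exact Primrec.nat_add.comp Primrec.id (Primrec.const 2)
    · exact Primrec.nat_add.comp Primrec.id (Primrec.const 3)

theorem code_Phi (χU χG : (LC C).Formula (Unit ⊕ ℕ)) (K : ℕ) : ∀ j ≤ K,
    code (Phi χU χG j (2 * (K - j))) =
      Nat.rec (cU χU (2 * K)) (fun j c => EE (cG χG (2 * (K - (j + 1)))) c) j := by
  intro j
  induction j with
  | zero =>
    intro _
    show code (BoundedFormula.relabel _ χU) = _
    rw [code_relabel]
    rfl
  | succ j ih =>
    intro hj
    have h1 : 2 * (K - (j + 1)) + 2 = 2 * (K - j) := by omega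
    have h2 : code (Phi χU χG (j + 1) (2 * (K - (j + 1)))) =
        EE (code (BoundedFormula.relabel (n := 2 * (K - (j + 1)) + 2 + 2)
          (fun a => (Sum.inr (rG (2 * (K - (j + 1))) a) :
            Empty ⊕ Fin (2 * (K - (j + 1)) + 2 + 2))) χG))
          (code (Phi χU χG j (2 * (K - (j + 1)) + 2))) := rfl
    have h3 : code (Phi χU χG j (2 * (K - (j + 1)) + 2)) = code (Phi χU χG j (2 * (K - j))) :=
      congrArg (fun M => code (Phi χU χG j M)) h1
    rw [h2, code_relabel, h3, ih (by omega)]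
    rfl

theorem primrec_code_Phi (χU χG : (LC C).Formula (Unit ⊕ ℕ)) :
    Primrec fun k => code (Phi χU χG k 0) := by
  have h : Primrec fun k : ℕ => (Nat.rec (cU χU (2 * k))
      (fun j c => EE (cG χG (2 * (k - (j + 1)))) c) k : ℕ) := by
    refine Primrec.nat_rec' (f := fun k : ℕ => k) (g := fun k => cU χU (2 * k))
      (h := fun k (jc : ℕ × ℕ) => EE (cG χG (2 * (k - (jc.1 + 1)))) jc.2) Primrec.id ?_ ?_
    · exact (primrec_cU χU).comp (Primrec.nat_mul.comp (Primrec.const 2) Primrec.id)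
    · refine primrec_EE.comp ((primrec_cG χG).comp (Primrec.nat_mul.comp (Primrec.const 2)
        (Primrec.nat_sub.comp Primrec.fst (Primrec.nat_add.comp
          (Primrec.fst.comp Primrec.snd) (Primrec.const 1))))) (Primrec.snd.comp Primrec.snd)
  refine h.of_eq fun k => ?_
  have := code_Phi χU χG k k le_rfl
  rw [Nat.sub_self, Nat.mul_zero] at this
  exact this.symm

end

/-- Guards: the sentence `∀ x₀ x₁, x₁ = x₀ ^ n → (Γ → Ψ)` says that `Ψ` holds at `o, o ^ n` for all
generators `o` if the monoid has infinite rank, and is true otherwise. -/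
theorem guard : ∃ Γ : (LC C).BoundedFormula Empty 2, ∀ (Ψ : (LC C).BoundedFormula Empty 2)
    (A : Type) [LinearOrder A] (g : C → A) (n : ℕ),
      TrueIn g (sig (Γ.imp Ψ) n) ↔ ∀ o : A, DJ.Tot o →
        @BoundedFormula.Realize (LC C) (PL A) (str g) _ _ Ψ default
          (Fin.snoc (Fin.snoc default (gen o) : Fin 1 → PL A) (gen o ^ n) : Fin 2 → PL A) := by
  obtain ⟨χ, hχ⟩ := isGen0 (C := C)
  obtain ⟨τ, hτ⟩ := DJ.tot (C := C)
  let r1 : Unit ⊕ ℕ → Empty ⊕ Fin 2 := fun s => match s with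
    | .inl _ => .inr 0
    | .inr _ => .inr 1
  let r2 : Empty ⊕ ℕ → Empty ⊕ Fin 2 := fun s => match s with
    | .inl e => e.elim
    | .inr _ => .inr 0
  refine ⟨(BoundedFormula.relabel (n := 2) r2 χ) ⊓ (BoundedFormula.relabel (n := 2) r1 τ),
    fun Ψ A _ g n => ?_⟩
  let _ := str g
  have key1 : ∀ (v0 : Empty → PL A) (x0 : Fin 0 → PL A) (o : A) (b : PL A),
      (BoundedFormula.relabel (n := 2) r1 τ : (LC C).BoundedFormula Empty 2).Realize v0
        (Fin.snoc (Fin.snoc x0 (gen o) : Fin 1 → PL A) b : Fin 2 → PL A) ↔ DJ.Tot o := by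
    intro v0 x0 o b
    rw [BoundedFormula.realize_relabel]
    have h1 : (Sum.elim v0 ((Fin.snoc (Fin.snoc x0 (gen o) : Fin 1 → PL A) b : Fin 2 → PL A) ∘
        Fin.castAdd 0) ∘ r1) = Sum.elim (fun _ => gen o) (fun _ => b) := by
      funext s
      rcases s with e | k
      · rfl
      · rfl
    rw [h1]
    refine Iff.trans ?_ (hτ ⟨A, inferInstance, g, o⟩ (fun _ => b))
    unfold Formula.Realize
    exact iff_of_eq (congrArg (BoundedFormula.Realize τ _) (Subsingleton.elim _ _))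
  have key2 : ∀ (v0 : Empty → PL A) (x0 : Fin 0 → PL A) (a b : PL A),
      (BoundedFormula.relabel (n := 2) r2 χ : (LC C).BoundedFormula Empty 2).Realize v0
        (Fin.snoc (Fin.snoc x0 a : Fin 1 → PL A) b : Fin 2 → PL A) ↔ IsGen a := by
    intro v0 x0 a b
    rw [BoundedFormula.realize_relabel]
    have h1 : (Sum.elim v0 ((Fin.snoc (Fin.snoc x0 a : Fin 1 → PL A) b : Fin 2 → PL A) ∘ Fin.castAdd 0) ∘ r2) =
        Sum.elim (fun e : Empty => e.elim) (fun _ => a) := by
      funext s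
      rcases s with e | k
      · exact e.elim
      · rfl
    rw [h1]
    refine Iff.trans ?_ (hχ ⟨A, inferInstance, g⟩ (fun _ => a))
    unfold Formula.Realize
    exact iff_of_eq (congrArg (BoundedFormula.Realize χ _) (Subsingleton.elim _ _))
  unfold TrueIn sig Sentence.Realize Formula.Realize
  rw [BoundedFormula.realize_all]
  simp only [BoundedFormula.realize_all, BoundedFormula.realize_imp, BoundedFormula.realize_inf]
  constructor
  · intro hh o ho
    refine hh (gen o) (gen o ^ n) ?_ ⟨(key2 _ _ _ _).2 ⟨o, rfl⟩, (key1 _ _ _ _).2 ho⟩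
    show _ = _
    rw [realize_num]
    rfl
  · rintro hh a b hab ⟨hgen, htot⟩
    obtain ⟨o, rfl⟩ := (key2 _ _ _ _).1 hgen
    have h1 : b = gen o ^ n := Eq.trans (b := _) hab (realize_num g n _)
    rw [h1]
    exact hh o ((key1 _ _ _ _).1 htot)

/-- The `ω`-jump: `Omega ⟨k, x⟩ ↔ H k x`. -/
def Omega (n : ℕ) : Prop := H n.unpair.1 n.unpair.2

/-- One computable function maps the `ω`-jump to sentences which are true in all plactic monoids,
and its complement to sentences which are false in all plactic monoids of infinite rank. -/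
theorem omega [Encodable C] : ∃ s : ℕ → (LC C).Sentence, Primrec (fun n => code (s n)) ∧
    ∀ n : ℕ, (Omega n → ∀ (A : Type) [LinearOrder A] (g : C → A), TrueIn g (s n)) ∧
      (¬ Omega n → ∀ (A : Type) [LinearOrder A] [Infinite A] (g : C → A), ¬ TrueIn g (s n)) := by
  obtain ⟨Γ, hΓ⟩ := guard (C := C)
  obtain ⟨χU, hU⟩ := exU (C := C)
  obtain ⟨χG, hG⟩ := exG (C := C)
  refine ⟨fun n => sig (Γ.imp (Phi χU χG n.unpair.1 0)) n.unpair.2, ?_, fun n => ?_⟩
  · have h1 : Primrec (fun n : ℕ => code (Phi χU χG n.unpair.1 0)) :=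
      (primrec_code_Phi χU χG).comp (Primrec.fst.comp Primrec.unpair)
    have h2 : Primrec (fun n : ℕ => code (Γ.imp (Phi χU χG n.unpair.1 0))) :=
      Primrec₂.natPair.comp (Primrec.const 2) (Primrec₂.natPair.comp (Primrec.const _) h1)
    simp only [code_sig]
    exact Primrec₂.natPair.comp (Primrec.const _) (Primrec₂.natPair.comp (Primrec.const _)
      (Primrec₂.natPair.comp (Primrec.const _)
      (Primrec₂.natPair.comp (Primrec₂.natPair.comp (Primrec.const _)
        (Primrec₂.natPair.comp (Primrec.const _)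
          (primrec_num.comp (Primrec.snd.comp Primrec.unpair)))) h2)))
  · have e : ∀ (A : Type) [LinearOrder A] [Infinite A] (g : C → A) (o : A),
        @BoundedFormula.Realize (LC C) (PL A) (str g) _ _ (Phi χU χG n.unpair.1 0) default
          (Fin.snoc (Fin.snoc default (gen o) : Fin 1 → PL A) (gen o ^ n.unpair.2) :
            Fin 2 → PL A) ↔ Omega n := by
      intro A _ _ g o
      exact realize_Phi hU hG ⟨⟨A, inferInstance, g, o⟩, inferInstance⟩ n.unpair.1 0 n.unpair.2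
        default _ rfl rfl
    refine ⟨fun hn A _ g => ?_, fun hn A _ _ g h => ?_⟩
    · rw [hΓ]
      intro o ho
      have := infinite_of_tot ho
      exact (e A g o).2 hn
    · rw [hΓ] at h
      obtain ⟨o⟩ : Nonempty A := inferInstance
      exact hn ((e A g o).1 (h o (tot_of_infinite o)))

end Pool.Agent.H59.PU
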